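import Mathlib

/-!
# Gallai colourings: recolouring when every vertex misses a colour

Library for MP_114a18_co.  Edge colourings of complete graphs are symmetric functions
`c : V → V → κ` (values on the diagonal are irrelevant).
-/

namespace Pool.Agent.GallaiStar

universe u v w

/-- No rainbow triangle. -/
def NoRb {V : Type u} {κ : Type v} (c : V → V → κ) : Prop :=
  ∀ x y z, x ≠ y → y ≠ z → x ≠ z → c x y = c y z ∨ c y z = c x z ∨ c x y = c x z

/-- The graph of the edges of colour `a`. -/
def colG {V : Type u} {κ : Type v} (c : V → V → κ) (a : κ) : SimpleGraph V where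
  Adj x y := x ≠ y ∧ c x y = a ∧ c y x = a
  symm := ⟨fun _ _ h => ⟨h.1.symm, h.2.2, h.2.1⟩⟩
  loopless := ⟨fun _ h => h.1 rfl⟩

theorem colG_adj {V : Type u} {κ : Type v} {c : V → V → κ} (hs : ∀ x y, c x y = c y x) {a : κ}
    {x y : V} : (colG c a).Adj x y ↔ x ≠ y ∧ c x y = a := by
  unfold colG
  simp only
  constructor
  · rintro ⟨h1, h2, -⟩; exact ⟨h1, h2⟩
  · rintro ⟨h1, h2⟩; exact ⟨h1, h2, by rw [hs]; exact h2⟩

section Partition

variable {κ : Type v}

/-- Edges leaving a component of a colour graph have a colour that depends only on the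
component. -/
theorem uniform_one {V : Type u} {c : V → V → κ} (hs : ∀ x y, c x y = c y x) (hg : NoRb c) {a : κ}
    {x y z : V} (hxy : (colG c a).Reachable x y) (hz : ¬ (colG c a).Reachable x z) :
    c x z = c y z := by
  obtain ⟨p⟩ := hxy
  induction p with
  | nil => rfl
  | @cons x' y' w' hadj q ih =>
    have hz' : ¬ (colG c a).Reachable y' z := fun h => hz (hadj.reachable.trans h)
    have h1 := ih hz'
    rw [← h1]
    rw [colG_adj hs] at hadj
    have hxz : x' ≠ z := fun h => hz (h ▸ SimpleGraph.Reachable.refl _)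
    have hyz : y' ≠ z := fun h => hz' (h ▸ SimpleGraph.Reachable.refl _)
    have ha1 : c x' z ≠ a := by
      intro h
      exact hz (SimpleGraph.Adj.reachable ((colG_adj hs).2 ⟨hxz, h⟩))
    have ha2 : c y' z ≠ a := by
      intro h
      exact hz' (SimpleGraph.Adj.reachable ((colG_adj hs).2 ⟨hyz, h⟩))
    rcases hg x' y' z hadj.1 hyz hxz with h | h | h
    · exact absurd (h.symm.trans hadj.2) ha2
    · exact h.symm
    · exact absurd (h.symm.trans hadj.2) ha1

/-- A Gallai partition in the form we need: homogeneous parts, at least two of them, and every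
vertex sees, outside its own part, every colour used between different parts. -/
theorem gallai_partition : ∀ (n : ℕ) (V : Type u) [Fintype V], Fintype.card V = n → 2 ≤ n →
    ∀ (c : V → V → κ), (∀ x y, c x y = c y x) → NoRb c →
    ∃ (f : V → V) (T : Set κ), (∃ x y, f x ≠ f y) ∧ (∀ x y, f x ≠ f y → c x y ∈ T) ∧
      (∀ x y z, f x = f y → f x ≠ f z → c x z = c y z) ∧
      (∀ x, ∀ a ∈ T, ∃ y, f x ≠ f y ∧ c x y = a) := by
  intro n
  induction n using Nat.strong_induction_on with
  | _ n ih =>
  intro V _ hn h2 c hs hg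
  classical
  by_cases hall : ∀ a, (∃ x y, x ≠ y ∧ c x y = a) → ∀ x, ∃ y, x ≠ y ∧ c x y = a
  · refine ⟨id, {a | ∃ x y, x ≠ y ∧ c x y = a}, ?_, ?_, ?_, ?_⟩
    · have : 1 < Fintype.card V := by omega
      obtain ⟨x, y, hxy⟩ := Fintype.one_lt_card_iff.1 this
      exact ⟨x, y, hxy⟩
    · intro x y hxy
      exact ⟨x, y, hxy, rfl⟩
    · intro x y z hxy _
      simp only [id] at hxy
      rw [hxy]
    · intro x a ha
      exact hall a ha x
  · push Not at hall
    obtain ⟨a, ⟨x, y, hxy, hxya⟩, u, hu⟩ := hall
    set G := colG c a with hG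
    have huniso : ∀ z, G.Reachable u z → u = z := by
      intro z hz
      obtain ⟨p⟩ := hz
      cases p with
      | nil => rfl
      | cons hadj _ =>
        rw [hG, colG_adj hs] at hadj
        exact absurd hadj.2 (hu _ hadj.1)
    have hxyr : G.Reachable x y := SimpleGraph.Adj.reachable ((colG_adj hs).2 ⟨hxy, hxya⟩)
    have hux : u ≠ x := by
      rintro rfl
      exact hu y hxy hxya
    have : Fintype G.ConnectedComponent := Fintype.ofFinite _
    have hsurj : Function.Surjective G.connectedComponentMk := by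
      intro C
      exact ⟨C.out, Quot.out_eq C⟩
    have hlt : Fintype.card G.ConnectedComponent < Fintype.card V := by
      refine lt_of_le_of_ne (Fintype.card_le_of_surjective _ hsurj) ?_
      intro hcard
      have hbij := (Fintype.bijective_iff_surjective_and_card G.connectedComponentMk).2
        ⟨hsurj, hcard.symm⟩
      have := hbij.1 (SimpleGraph.ConnectedComponent.eq.2 hxyr)
      exact hxy this
    have hge : 2 ≤ Fintype.card G.ConnectedComponent := by
      have : 1 < Fintype.card G.ConnectedComponent := by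
        rw [Fintype.one_lt_card_iff]
        refine ⟨G.connectedComponentMk u, G.connectedComponentMk x, ?_⟩
        intro h
        exact hux (huniso x (SimpleGraph.ConnectedComponent.eq.1 h))
      exact this
    have hout : ∀ C : G.ConnectedComponent, G.connectedComponentMk C.out = C :=
      fun C => Quot.out_eq C
    have hinj : ∀ C D : G.ConnectedComponent, C ≠ D → (C.out : V) ≠ D.out := by
      intro C D hCD h
      exact hCD (by rw [← hout C, ← hout D, h])
    have huni : ∀ x y z w, G.connectedComponentMk x = G.connectedComponentMk y →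
        G.connectedComponentMk z = G.connectedComponentMk w →
        G.connectedComponentMk x ≠ G.connectedComponentMk z → c x z = c y w := by
      intro x y z w hxy hzw hxz
      have h1 : c x z = c y z := uniform_one (a := a) hs hg
        (SimpleGraph.ConnectedComponent.eq.1 hxy)
        (fun h => hxz (SimpleGraph.ConnectedComponent.eq.2 h))
      have h2 : c z y = c w y := uniform_one (a := a) hs hg
        (SimpleGraph.ConnectedComponent.eq.1 hzw)
        (fun h => hxz (hxy.trans (SimpleGraph.ConnectedComponent.eq.2 h).symm))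
      rw [h1, hs y z, h2, hs]
    obtain ⟨f, T, ⟨C0, D0, hCD⟩, hT, hmod, hsee⟩ := ih _ (hn ▸ hlt) G.ConnectedComponent rfl hge
      (fun C D => c C.out D.out) (fun C D => hs _ _) (by
        intro C D E h1 h2 h3
        exact hg _ _ _ (hinj _ _ h1) (hinj _ _ h2) (hinj _ _ h3))
    have hval : ∀ p q, G.connectedComponentMk p ≠ G.connectedComponentMk q →
        c p q = c (G.connectedComponentMk p).out (G.connectedComponentMk q).out := by
      intro p q hpq
      exact huni _ _ _ _ (hout _).symm (hout _).symm hpq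
    have hfne : ∀ p q, (f (G.connectedComponentMk p)).out ≠ (f (G.connectedComponentMk q)).out ↔
        f (G.connectedComponentMk p) ≠ f (G.connectedComponentMk q) := by
      intro p q
      constructor
      · intro h h'; exact h (by rw [h'])
      · intro h; exact hinj _ _ h
    have hne : ∀ p q, f (G.connectedComponentMk p) ≠ f (G.connectedComponentMk q) →
        G.connectedComponentMk p ≠ G.connectedComponentMk q := by
      intro p q h h'; exact h (by rw [h'])
    refine ⟨fun p => (f (G.connectedComponentMk p)).out, T, ?_, ?_, ?_, ?_⟩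
    · refine ⟨C0.out, D0.out, ?_⟩
      rw [hfne, hout, hout]
      exact hCD
    · intro p q hpq
      rw [hfne] at hpq
      rw [hval p q (hne p q hpq)]
      exact hT _ _ hpq
    · intro p q r hpq hpr
      have hpq' : f (G.connectedComponentMk p) = f (G.connectedComponentMk q) := by
        by_contra h
        exact ((hfne p q).2 h) hpq
      rw [hfne] at hpr
      rw [hval p r (hne p r hpr), hval q r (hne q r (hpq' ▸ hpr))]
      exact hmod _ _ _ hpq' hpr
    · intro p b hb
      obtain ⟨D, hD, hDb⟩ := hsee (G.connectedComponentMk p) b hb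
      refine ⟨D.out, ?_, ?_⟩
      · rw [hfne, hout]; exact hD
      · rw [hval p D.out (by rw [hout]; intro h; exact hD (by rw [h]))]
        rw [hout]
        exact hDb

end Partition

section Recolour

variable {κ : Type v}

/-- Restriction of a colouring to a part of a partition. -/
def restr {V : Type u} (c : V → V → κ) (f : V → V) (i : V) : {x // f x = i} → {x // f x = i} → κ :=
  fun x y => c x.1 y.1

/-- `H` is good for unions: in a Gallai colouring all of whose parts are `H`-free in every colour,
a colour that is not used between different parts is `H`-free. -/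
def UnionOK {W : Type w} (H : SimpleGraph W) (κ : Type v) : Prop :=
  ∀ (V : Type u) [Fintype V] (c : V → V → κ) (f : V → V) (a : κ), (∀ x y, c x y = c y x) →
    NoRb c → (∀ x y, x ≠ y → c x y = a → f x = f y) →
    (∀ i b, IsEmpty (H →g colG (restr c f i) b)) → IsEmpty (H →g colG c a)

theorem unionOK_of_connected {W : Type w} (H : SimpleGraph W) (hH : H.Connected) :
    UnionOK.{u} H κ := by
  intro V _ c f a hs hg hf hfree
  refine ⟨fun φ => ?_⟩
  obtain ⟨w0⟩ := hH.nonempty
  have hconst : ∀ w, f (φ w) = f (φ w0) := by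
    intro w
    obtain ⟨p⟩ := hH.preconnected w w0
    induction p with
    | nil => rfl
    | cons hadj _ ih =>
      have h1 := φ.map_adj hadj
      rw [colG_adj hs] at h1
      rw [hf _ _ h1.1 h1.2, ih]
  refine (hfree (f (φ w0)) a).false ⟨fun w => ⟨φ w, hconst w⟩, ?_⟩
  intro w w' hadj
  have h1 := φ.map_adj hadj
  rw [colG_adj hs] at h1
  exact (colG_adj (fun _ _ => hs _ _)).2 ⟨fun h => h1.1 (congrArg Subtype.val h), h1.2⟩

theorem colG_swap_isEmpty {V : Type u} [DecidableEq κ] {W : Type w} (H : SimpleGraph W)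
    (c : V → V → κ) (p q : κ) (h : ∀ a, IsEmpty (H →g colG c a)) (a : κ) :
    IsEmpty (H →g colG (fun x y => Equiv.swap p q (c x y)) a) := by
  refine ⟨fun φ => (h (Equiv.swap p q a)).false ⟨φ, ?_⟩⟩
  intro w w' hadj
  have h1 := φ.map_adj hadj
  refine ⟨h1.1, ?_, ?_⟩
  · have h2 := congrArg (Equiv.swap p q) h1.2.1
    simp only [Equiv.swap_apply_self] at h2
    exact h2
  · have h2 := congrArg (Equiv.swap p q) h1.2.2
    simp only [Equiv.swap_apply_self] at h2
    exact h2

/-- The recolouring theorem. -/
theorem recolour {W : Type w} (H : SimpleGraph W) (hU : UnionOK.{u} H κ) :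
    ∀ (n : ℕ) (V : Type u) [Fintype V], Fintype.card V = n →
    ∀ (c : V → V → κ), (∀ x y, c x y = c y x) → NoRb c → (∀ a, IsEmpty (H →g colG c a)) →
    ∀ (M : Set κ), (∀ x, ∃ m ∈ M, ∀ y, x ≠ y → c x y ≠ m) → ∀ m₀ ∈ M,
    ∃ c' : V → V → κ, (∀ x y, c' x y = c' y x) ∧ NoRb c' ∧ (∀ x y, x ≠ y → c' x y ≠ m₀) ∧
      (∀ a, a ∉ M → ∀ x y, x ≠ y → (c' x y = a ↔ c x y = a)) ∧
      (∀ a, IsEmpty (H →g colG c' a)) := by
  intro n
  induction n using Nat.strong_induction_on with
  | _ n ih =>
  intro V _ hn c hs hg hfree M hmiss m₀ hm₀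
  classical
  rcases lt_or_ge n 2 with h2 | h2
  · have hsub : Subsingleton V := Fintype.card_le_one_iff_subsingleton.1 (by omega)
    exact ⟨c, hs, hg, fun x y h => absurd (Subsingleton.elim x y) h, fun _ _ _ _ _ => Iff.rfl,
      hfree⟩
  obtain ⟨f, T, ⟨x0, y0, hxy0⟩, hT, hmod, hsee⟩ := gallai_partition n V hn h2 c hs hg
  have hmissT : ∀ x, ∃ m ∈ M \ T, ∀ y, x ≠ y → c x y ≠ m := by
    intro x
    obtain ⟨m, hm, hx⟩ := hmiss x
    refine ⟨m, ⟨hm, fun hmT => ?_⟩, hx⟩
    obtain ⟨y, hy, hc⟩ := hsee x m hmT
    exact hx y (fun h => hy (by rw [h])) hc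
  obtain ⟨m₁, ⟨hm₁M, hm₁T⟩, -⟩ := hmissT x0
  have hpart : ∀ i : V, ∃ c' : {x // f x = i} → {x // f x = i} → κ, (∀ x y, c' x y = c' y x) ∧
      NoRb c' ∧ (∀ x y, x ≠ y → c' x y ≠ m₁) ∧
      (∀ a, a ∉ M \ T → ∀ x y, x ≠ y → (c' x y = a ↔ restr c f i x y = a)) ∧
      (∀ a, IsEmpty (H →g colG c' a)) := by
    intro i
    refine ih (Fintype.card {x // f x = i}) ?_ _ rfl (restr c f i) (fun _ _ => hs _ _) ?_ ?_
      (M \ T) ?_ m₁ ⟨hm₁M, hm₁T⟩
    · rw [← hn]
      by_cases h : f x0 = i
      · exact Fintype.card_subtype_lt (x := y0) (fun h' => hxy0 (h.trans h'.symm))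
      · exact Fintype.card_subtype_lt (x := x0) h
    · intro x y z h1 h2 h3
      exact hg _ _ _ (fun h => h1 (Subtype.ext h)) (fun h => h2 (Subtype.ext h))
        (fun h => h3 (Subtype.ext h))
    · intro a
      refine ⟨fun φ => (hfree a).false ⟨fun w => (φ w).1, ?_⟩⟩
      intro w w' hadj
      have h1 := φ.map_adj hadj
      exact ⟨fun h => h1.1 (Subtype.ext h), h1.2.1, h1.2.2⟩
    · intro x
      obtain ⟨m, hm, hx⟩ := hmissT x.1
      exact ⟨m, hm, fun y hxy => hx y.1 (fun h => hxy (Subtype.ext h))⟩
  choose d hds hdg hdm hdM hdf using hpart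
  -- the new colouring
  let e : V → V → κ := fun x y => if h : f x = f y then d (f y) ⟨x, h⟩ ⟨y, rfl⟩ else c x y
  have he_in : ∀ (i x y : V) (hx : f x = i) (hy : f y = i), e x y = d i ⟨x, hx⟩ ⟨y, hy⟩ := by
    intro i x y hx hy
    subst hy
    simp only [e]
    rw [dif_pos hx]
  have he_out : ∀ x y, f x ≠ f y → e x y = c x y := by
    intro x y h
    simp only [e]
    rw [dif_neg h]
  have hes : ∀ x y, e x y = e y x := by
    intro x y
    by_cases h : f x = f y
    · rw [he_in (f y) x y h rfl, he_in (f y) y x rfl h, hds]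
    · rw [he_out x y h, he_out y x (fun h' => h h'.symm), hs]
  have heg : NoRb e := by
    intro x y z hxy hyz hxz
    by_cases h1 : f x = f y
    · by_cases h2 : f y = f z
      · rw [he_in (f z) x y (h1.trans h2) h2, he_in (f z) y z h2 rfl,
          he_in (f z) x z (h1.trans h2) rfl]
        exact hdg _ _ _ _ (fun h => hxy (congrArg Subtype.val h))
          (fun h => hyz (congrArg Subtype.val h)) (fun h => hxz (congrArg Subtype.val h))
      · right; left
        rw [he_out y z h2, he_out x z (fun h => h2 (h1.symm.trans h))]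
        exact (hmod x y z h1 (fun h => h2 (h1.symm.trans h))).symm
    · by_cases h2 : f y = f z
      · right; right
        rw [he_out x y h1, he_out x z (fun h => h1 (h.trans h2.symm)), hs x y, hs x z]
        exact hmod y z x h2 (fun h => h1 h.symm)
      · by_cases h3 : f x = f z
        · left
          rw [he_out x y h1, he_out y z h2, hs y z]
          exact hmod x z y h3 h1
        · rw [he_out x y h1, he_out y z h2, he_out x z h3]
          exact hg x y z hxy hyz hxz
  have hem : ∀ x y, x ≠ y → e x y ≠ m₁ := by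
    intro x y hxy
    by_cases h : f x = f y
    · rw [he_in (f y) x y h rfl]
      exact hdm _ _ _ (fun h => hxy (congrArg Subtype.val h))
    · rw [he_out x y h]
      intro h'
      exact hm₁T (h' ▸ hT x y h)
  have heM : ∀ a, a ∉ M \ T → ∀ x y, x ≠ y → (e x y = a ↔ c x y = a) := by
    intro a ha x y hxy
    by_cases h : f x = f y
    · rw [he_in (f y) x y h rfl]
      exact hdM _ a ha _ _ (fun h => hxy (congrArg Subtype.val h))
    · rw [he_out x y h]
  have hef : ∀ a, IsEmpty (H →g colG e a) := by
    intro a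
    by_cases ha : a ∈ T
    · have ha' : a ∉ M \ T := fun h => h.2 ha
      refine ⟨fun φ => (hfree a).false ⟨φ, ?_⟩⟩
      intro w w' hadj
      have h1 := φ.map_adj hadj
      rw [colG_adj hes] at h1
      rw [colG_adj hs]
      exact ⟨h1.1, (heM a ha' _ _ h1.1).1 h1.2⟩
    · refine hU V e f a hes heg ?_ ?_
      · intro x y hxy hxa
        by_contra h
        rw [he_out x y h] at hxa
        exact ha (hxa ▸ hT x y h)
      · intro i b
        refine ⟨fun φ => (hdf i b).false ⟨φ, ?_⟩⟩
        intro w w' hadj
        have h1 := φ.map_adj hadj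
        have h2 : ∀ p q : {x // f x = i}, restr e f i p q = d i p q := by
          intro p q
          exact he_in i p.1 q.1 p.2 q.2
        refine ⟨h1.1, ?_, ?_⟩
        · rw [← h2]; exact h1.2.1
        · rw [← h2]; exact h1.2.2
  refine ⟨fun x y => Equiv.swap m₀ m₁ (e x y), ?_, ?_, ?_, ?_, ?_⟩
  · intro x y; simp only; rw [hes]
  · intro x y z h1 h2 h3
    rcases heg x y z h1 h2 h3 with h | h | h
    · left; simp only; rw [h]
    · right; left; simp only; rw [h]
    · right; right; simp only; rw [h]
  · intro x y hxy h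
    have : e x y = m₁ := by
      have h' := congrArg (Equiv.swap m₀ m₁) h
      rw [Equiv.swap_apply_self, Equiv.swap_apply_left] at h'
      exact h'
    exact hem x y hxy this
  · intro a ha x y hxy
    have ham₀ : a ≠ m₀ := fun h => ha (h ▸ hm₀)
    have ham₁ : a ≠ m₁ := fun h => ha (h ▸ hm₁M)
    rw [← heM a (fun h => ha h.1) x y hxy]
    constructor
    · intro h
      have h' := congrArg (Equiv.swap m₀ m₁) h
      rw [Equiv.swap_apply_self, Equiv.swap_apply_of_ne_of_ne ham₀ ham₁] at h'
      exact h'
    · intro h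
      show Equiv.swap m₀ m₁ (e x y) = a
      rw [h, Equiv.swap_apply_of_ne_of_ne ham₀ ham₁]
  · exact colG_swap_isEmpty H e m₀ m₁ hef

end Recolour

end Pool.Agent.GallaiStar
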