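import Pool.Agent.Lib.MP_114a18_co.Recolor

/-!
# Gallai colourings without monochromatic triangles

Every colour graph of such a colouring is bipartite or homomorphically equivalent to `C₅`.
-/

set_option linter.unusedSimpArgs false

namespace Pool.Agent.GallaiStar

universe u v w

variable {κ : Type v}

/-- A colour is used. -/
def Used {V : Type u} (c : V → V → κ) (a : κ) : Prop := ∃ x y, x ≠ y ∧ c x y = a

/-- Gallai's theorem: if all colours that are used are connected, at most two are used. -/
theorem gallai_two : ∀ (n : ℕ) (V : Type u) [Fintype V], Fintype.card V = n →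
    ∀ (c : V → V → κ), (∀ x y, c x y = c y x) → NoRb c →
    (∀ a, Used c a → (colG c a).Connected) →
    ∀ a b d, Used c a → Used c b → Used c d → a ≠ b → b ≠ d → a ≠ d → False := by
  intro n
  induction n using Nat.strong_induction_on with
  | _ n ih =>
  intro V _ hn c hs hg hcon a b d ha hb hd hab hbd had
  classical
  -- every vertex sees every used colour
  have hsee : ∀ q, Used c q → ∀ x, ∃ y, x ≠ y ∧ c x y = q := by
    intro q hq x
    obtain ⟨y, z, hyz, hc⟩ := hq
    have hC := hcon q ⟨y, z, hyz, hc⟩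
    have : ∃ w, x ≠ w := by
      by_cases h : x = y
      · exact ⟨z, fun h' => hyz (h.symm.trans h')⟩
      · exact ⟨y, h⟩
    obtain ⟨w, hw⟩ := this
    obtain ⟨p⟩ := hC.preconnected x w
    cases p with
    | nil => exact absurd rfl hw
    | @cons _ y' _ hadj _ =>
      rw [colG_adj hs] at hadj
      exact ⟨y', hadj.1, hadj.2⟩
  have ha0 := ha
  obtain ⟨v, -, -, -⟩ := ha0
  -- the colouring without `v`
  let V' := {x : V // x ≠ v}
  let c' : V' → V' → κ := fun x y => c x.1 y.1
  have hs' : ∀ x y, c' x y = c' y x := fun _ _ => hs _ _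
  have hg' : NoRb c' := by
    intro x y z h1 h2 h3
    exact hg _ _ _ (fun h => h1 (Subtype.ext h)) (fun h => h2 (Subtype.ext h))
      (fun h => h3 (Subtype.ext h))
  have hused : ∀ q, Used c q → ∀ q', Used c q' → q ≠ q' → Used c' q := by
    intro q hq q' hq' hqq'
    obtain ⟨y, hy, hcy⟩ := hsee q' hq' v
    obtain ⟨z, hz, hcz⟩ := hsee q hq y
    have hzv : z ≠ v := by
      rintro rfl
      rw [hs] at hcy
      exact hqq' (hcz.symm.trans hcy)
    exact ⟨⟨y, hy.symm⟩, ⟨z, hzv⟩, fun h => hz (congrArg Subtype.val h), hcz⟩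
  have ha' : Used c' a := hused a ha b hb hab
  have hb' : Used c' b := hused b hb a ha hab.symm
  have hd' : Used c' d := hused d hd a ha had.symm
  have hnot : ¬ ∀ q, Used c' q → (colG c' q).Connected := by
    intro h
    refine ih (Fintype.card V') ?_ V' rfl c' hs' hg' h a b d ha' hb' hd' hab hbd had
    rw [← hn]
    exact Fintype.card_subtype_lt (x := v) (by simp)
  push Not at hnot
  obtain ⟨r, hr, hrc⟩ := hnot
  have hrU : Used c r := by
    obtain ⟨x, y, hxy, h⟩ := hr
    exact ⟨x.1, y.1, fun h' => hxy (Subtype.ext h'), h⟩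
  have hne : Nonempty V' := ⟨hr.choose⟩
  -- every vertex of `V'` is not connected to something
  have hother : ∀ x : V', ∃ y : V', ¬ (colG c' r).Reachable x y := by
    intro x
    by_contra h
    push Not at h
    apply hrc
    have : (colG c' r).Preconnected := fun y z => (h y).symm.trans (h z)
    exact ⟨this⟩
  -- `v` has an `r`-neighbour in every component
  have hnb : ∀ x : V', ∃ y : V', (colG c' r).Reachable x y ∧ c v y.1 = r := by
    intro x
    obtain ⟨p⟩ := (hcon r hrU).preconnected x.1 v
    have key : ∀ (s t : V) (p : (colG c r).Walk s t) (hsv : s ≠ v), t = v →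
        ∃ y : V', (colG c' r).Reachable ⟨s, hsv⟩ y ∧ c v y.1 = r := by
      intro s t p
      induction p with
      | nil => intro h1 h2; exact absurd h2 h1
      | @cons s1 s2 s3 hadj q ihq =>
        intro h1 h2
        rw [colG_adj hs] at hadj
        by_cases h3 : s2 = v
        · refine ⟨⟨s1, h1⟩, SimpleGraph.Reachable.refl _, ?_⟩
          have h4 := hadj.2
          rw [h3] at h4
          rw [hs]; exact h4
        · obtain ⟨y, hy1, hy2⟩ := ihq h3 h2
          refine ⟨y, SimpleGraph.Reachable.trans ?_ hy1, hy2⟩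
          apply SimpleGraph.Adj.reachable
          rw [colG_adj hs']
          exact ⟨fun h => hadj.1 (congrArg Subtype.val h), hadj.2⟩
    exact key x.1 v p x.2 rfl
  -- two colours different from `r` at `v`
  have hpq : ∃ p q, Used c p ∧ Used c q ∧ p ≠ q ∧ p ≠ r ∧ q ≠ r := by
    by_cases h1 : a = r
    · exact ⟨b, d, hb, hd, hbd, fun h => hab (h1.trans h.symm), fun h => had (h1.trans h.symm)⟩
    · by_cases h2 : b = r
      · exact ⟨a, d, ha, hd, had, h1, fun h => hbd (h2.trans h.symm)⟩
      · exact ⟨a, b, ha, hb, hab, h1, h2⟩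
  obtain ⟨p, q, hp, hq, hpq, hpr, hqr⟩ := hpq
  -- all edges leaving the component of a `p`-neighbour of `v` have colour `p`
  have hleave : ∀ p, p ≠ r → ∀ w : V', c v w.1 = p → ∀ x y : V', (colG c' r).Reachable w x →
      ¬ (colG c' r).Reachable w y → c' x y = p := by
    intro p hpr w hw x y hx hy
    obtain ⟨z, hz1, hz2⟩ := hnb y
    have hwz : ¬ (colG c' r).Reachable w z := fun h => hy (h.trans hz1.symm)
    have h1 : c' w z = p := by
      have hvw : v ≠ w.1 := fun h => w.2 h.symm
      have hvz : v ≠ z.1 := fun h => z.2 h.symm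
      have hwz' : w.1 ≠ z.1 := by
        intro h
        apply hwz
        rw [show w = z from Subtype.ext h]
      rcases hg v w.1 z.1 hvw hwz' hvz with h | h | h
      · exact h.symm.trans hw
      · exfalso
        apply hwz
        apply SimpleGraph.Adj.reachable
        rw [colG_adj hs']
        exact ⟨fun h' => hwz' (congrArg Subtype.val h'), h.trans hz2⟩
      · exact absurd ((hw.symm.trans h).trans hz2) hpr
    have h2 : c' w y = c' x y := uniform_one hs' hg' hx hy
    have h3 : c' z w = c' y w := uniform_one hs' hg' hz1.symm (fun h => hwz h.symm)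
    rw [← h2, hs' w y, ← h3, hs' z w, h1]
  obtain ⟨w1, hw1, hcw1⟩ := hsee p hp v
  obtain ⟨w2, hw2, hcw2⟩ := hsee q hq v
  by_cases hC : (colG c' r).Reachable ⟨w1, hw1.symm⟩ ⟨w2, hw2.symm⟩
  · obtain ⟨y, hy⟩ := hother ⟨w1, hw1.symm⟩
    have h1 := hleave p hpr ⟨w1, hw1.symm⟩ hcw1 ⟨w1, hw1.symm⟩ y
      (SimpleGraph.Reachable.refl _) hy
    have h2 := hleave q hqr ⟨w2, hw2.symm⟩ hcw2 ⟨w1, hw1.symm⟩ y hC.symm
      (fun h => hy (hC.trans h))
    exact hpq (h1.symm.trans h2)
  · have h1 := hleave p hpr ⟨w1, hw1.symm⟩ hcw1 ⟨w1, hw1.symm⟩ ⟨w2, hw2.symm⟩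
      (SimpleGraph.Reachable.refl _) hC
    have h2 := hleave q hqr ⟨w2, hw2.symm⟩ hcw2 ⟨w2, hw2.symm⟩ ⟨w1, hw1.symm⟩
      (SimpleGraph.Reachable.refl _) (fun h => hC h.symm)
    rw [hs'] at h2
    exact hpq (h1.symm.trans h2)

/-- The pentagon. -/
def C5 : SimpleGraph (Fin 5) where
  Adj i j := j = i + 1 ∨ i = j + 1
  symm := ⟨fun _ _ h => h.symm⟩
  loopless := ⟨by decide⟩

instance : DecidableRel C5.Adj := fun i j => inferInstanceAs (Decidable (j = i + 1 ∨ i = j + 1))

/-- A graph that maps to `C₅` and is bipartite or contains a homomorphic image of `C₅`. -/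
def Good {V : Type u} (G : SimpleGraph V) : Prop :=
  Nonempty (G →g C5) ∧ (G.Colorable 2 ∨ Nonempty (C5 →g G))

theorem good_of_colorable {V : Type u} {G : SimpleGraph V} (h : G.Colorable 2) : Good G := by
  refine ⟨?_, Or.inl h⟩
  obtain ⟨f⟩ := h
  refine ⟨⟨fun x => if f x = 0 then 0 else 1, ?_⟩⟩
  intro x y hxy
  have h1 : f x ≠ f y := f.valid hxy
  have h2 : ∀ p q : Fin 2, p ≠ q → C5.Adj (if p = 0 then 0 else 1) (if q = 0 then 0 else 1) := by
    decide
  exact h2 _ _ h1

/-- Small Ramsey case. -/
theorem good_of_small {V : Type u} [Fintype V] (G : SimpleGraph V)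
    (h1 : ∀ x y z, G.Adj x y → G.Adj y z → G.Adj x z → False)
    (h2 : ∀ x y z, x ≠ y → y ≠ z → x ≠ z → ¬ G.Adj x y → ¬ G.Adj y z → ¬ G.Adj x z → False) :
    Good G := by
  classical
  by_cases hV : Nonempty V
  swap
  · exact good_of_colorable ⟨⟨fun x => absurd ⟨x⟩ hV, fun {x} _ _ => absurd ⟨x⟩ hV⟩⟩
  obtain ⟨v⟩ := hV
  -- is there a set of two neighbours and two non-neighbours?
  by_cases hN : ∃ z w, z ≠ w ∧ v ≠ z ∧ v ≠ w ∧ ¬ G.Adj v z ∧ ¬ G.Adj v w
  swap
  · -- at most one non-neighbour: colour by adjacency to `v`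
    refine good_of_colorable ⟨⟨fun x => if G.Adj v x then 0 else 1, ?_⟩⟩
    intro x y hxy
    by_cases hx : G.Adj v x
    · have hy : ¬ G.Adj v y := fun h => h1 v x y hx hxy h
      simp [hx, hy]
    · by_cases hy : G.Adj v y
      · simp [hx, hy]
      · exfalso
        by_cases hvx : v = x
        · exact hy (hvx ▸ hxy)
        · by_cases hvy : v = y
          · exact hx (hvy ▸ hxy.symm)
          · exact hN ⟨x, y, hxy.ne, hvx, hvy, hx, hy⟩
  obtain ⟨z, w, hzw, hvz, hvw, hz, hw⟩ := hN
  have hzw' : G.Adj z w := by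
    by_contra h
    exact h2 v z w hvz hzw hvw hz h hw
  have hnon : ∀ x, v ≠ x → ¬ G.Adj v x → x = z ∨ x = w := by
    intro x hx hxv
    by_contra h
    push Not at h
    have e1 : G.Adj x z := by
      by_contra h'
      exact h2 v x z hx h.1 hvz hxv h' hz
    have e2 : G.Adj x w := by
      by_contra h'
      exact h2 v x w hx h.2 hvw hxv h' hw
    exact h1 x z w e1 hzw' e2
  by_cases hM : ∃ x y, x ≠ y ∧ G.Adj v x ∧ G.Adj v y
  swap
  · -- at most one neighbour
    have hnb : ∀ x y, G.Adj v x → G.Adj v y → x = y := by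
      intro x y hx hy
      by_contra h
      exact hM ⟨x, y, h, hx, hy⟩
    by_cases hx : ∃ x, G.Adj v x
    · obtain ⟨x, hx⟩ := hx
      have hor : ¬ G.Adj x z ∨ ¬ G.Adj x w := by
        by_contra h
        push Not at h
        exact h1 x z w h.1 hzw' h.2
      have hxz : x ≠ z := fun h => hz (h ▸ hx)
      have hxw : x ≠ w := fun h => hw (h ▸ hx)
      have hcov : ∀ y, y = v ∨ y = x ∨ y = z ∨ y = w := by
        intro y
        by_cases hy : v = y
        · exact Or.inl hy.symm
        · by_cases hy' : G.Adj v y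
          · exact Or.inr (Or.inl (hnb _ _ hy' hx))
          · exact Or.inr (Or.inr (hnon y hy hy'))
      have build : ∀ s t : V, ¬ G.Adj x s → ¬ G.Adj v t → t ≠ v → x ≠ t → s ≠ t → v ≠ s →
          (∀ y, y = v ∨ y = x ∨ y = s ∨ y = t) → G.Colorable 2 := by
        intro s t hxs hvt htv hxt hst hvs hc
        refine ⟨⟨fun y => if y = x ∨ y = s then 0 else 1, ?_⟩⟩
        have hxv : v ≠ x := hx.ne
        intro p q hpq
        rcases hc p with rfl | rfl | rfl | rfl <;> rcases hc q with rfl | rfl | rfl | rfl <;>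
          first
          | exact absurd hpq (G.loopless.irrefl _)
          | exact absurd hpq hxs
          | exact absurd hpq.symm hxs
          | exact absurd hpq hvt
          | exact absurd hpq.symm hvt
          | (simp [hxv, hvs, htv.symm, hxt.symm, hst.symm, hxv.symm, hvs.symm, htv, hxt, hst])
      rcases hor with h | h
      · exact good_of_colorable (build z w h hw hvw.symm hxw hzw hvz hcov)
      · exact good_of_colorable (build w z h hz hvz.symm hxz hzw.symm hvw
          (fun y => by rcases hcov y with h | h | h | h <;> simp [h]))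
    · -- `v` isolated
      push Not at hx
      refine good_of_colorable ⟨⟨fun y => if y = z then 0 else 1, ?_⟩⟩
      intro p q hpq
      have hp : p ≠ v := fun h => hx q (h ▸ hpq)
      have hq : q ≠ v := fun h => hx p (h ▸ hpq.symm)
      rcases hnon p hp.symm (hx p) with rfl | rfl <;>
        rcases hnon q hq.symm (hx q) with rfl | rfl
      · exact absurd hpq (G.loopless.irrefl _)
      · simp [hzw.symm]
      · simp [hzw.symm]
      · exact absurd hpq (G.loopless.irrefl _)
  obtain ⟨x, y, hxy, hvx, hvy⟩ := hM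
  have hxy' : ¬ G.Adj x y := fun h => h1 v x y hvx h hvy
  have hnb : ∀ t, G.Adj v t → t = x ∨ t = y := by
    intro t ht
    by_contra h
    push Not at h
    exact h2 t x y h.1 hxy h.2 (fun h' => h1 v t x ht h' hvx) hxy' (fun h' => h1 v t y ht h' hvy)
  have hcov : ∀ t, t = v ∨ t = x ∨ t = z ∨ t = w ∨ t = y := by
    intro t
    by_cases h : v = t
    · exact Or.inl h.symm
    · by_cases h' : G.Adj v t
      · rcases hnb t h' with h'' | h'' <;> simp [h'']
      · rcases hnon t h h' with h'' | h'' <;> simp [h'']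
  have hxz : x ≠ z := fun h => hz (h ▸ hvx)
  have hxw : x ≠ w := fun h => hw (h ▸ hvx)
  have hyz : y ≠ z := fun h => hz (h ▸ hvy)
  have hyw : y ≠ w := fun h => hw (h ▸ hvy)
  have hvx' : v ≠ x := hvx.ne
  have hvy' : v ≠ y := hvy.ne
  -- build the pentagon `v x s t y`
  have build : ∀ s t : V, s ≠ t → v ≠ s → v ≠ t → x ≠ s → x ≠ t → y ≠ s → y ≠ t →
      ¬ G.Adj v s → ¬ G.Adj v t → G.Adj s t → G.Adj x s → G.Adj y t → ¬ G.Adj x t →
      ¬ G.Adj y s → (∀ q, q = v ∨ q = x ∨ q = s ∨ q = t ∨ q = y) → Good G := by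
    intro s t hst hvs hvt hxs hxt hys hyt a1 a2 a3 a4 a5 a6 a7 hc
    have hto : Nonempty (G →g C5) := by
      refine ⟨⟨fun q => if q = v then 0 else if q = x then 1 else if q = s then 2 else
        if q = t then 3 else 4, ?_⟩⟩
      intro p q hpq
      rcases hc p with rfl | rfl | rfl | rfl | rfl <;>
        rcases hc q with rfl | rfl | rfl | rfl | rfl <;>
        first
        | exact absurd hpq (G.loopless.irrefl _)
        | exact absurd hpq a1
        | exact absurd hpq.symm a1
        | exact absurd hpq a2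
        | exact absurd hpq.symm a2
        | exact absurd hpq a6
        | exact absurd hpq.symm a6
        | exact absurd hpq a7
        | exact absurd hpq.symm a7
        | exact absurd hpq hxy'
        | exact absurd hpq.symm hxy'
        | (simp only [hst, hst.symm, hvs, hvs.symm, hvt, hvt.symm, hxs, hxs.symm, hxt, hxt.symm,
            hys, hys.symm, hyt, hyt.symm, hvx', hvx'.symm, hvy', hvy'.symm, hxy, hxy.symm,
            if_true, if_false]
           decide)
    have hfrom : Nonempty (C5 →g G) := by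
      let g : Fin 5 → V := ![v, x, s, t, y]
      refine ⟨⟨g, ?_⟩⟩
      intro i j hij
      fin_cases i <;> fin_cases j <;>
        first
        | exact absurd hij (by decide)
        | exact hvx
        | exact hvx.symm
        | exact hvy
        | exact hvy.symm
        | exact a3
        | exact a3.symm
        | exact a4
        | exact a4.symm
        | exact a5
        | exact a5.symm
    exact ⟨hto, Or.inr hfrom⟩
  -- the two cases
  have c1 : G.Adj x z ∨ G.Adj y z := by
    by_contra h
    push Not at h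
    exact h2 x y z hxy hyz hxz hxy' h.2 h.1
  have c2 : G.Adj x w ∨ G.Adj y w := by
    by_contra h
    push Not at h
    exact h2 x y w hxy hyw hxw hxy' h.2 h.1
  have c3 : ¬ (G.Adj x z ∧ G.Adj x w) := fun h => h1 x z w h.1 hzw' h.2
  have c4 : ¬ (G.Adj y z ∧ G.Adj y w) := fun h => h1 y z w h.1 hzw' h.2
  by_cases hc : G.Adj x z
  · have hxw' : ¬ G.Adj x w := fun h => c3 ⟨hc, h⟩
    have hyw' : G.Adj y w := c2.resolve_left hxw'
    have hyz' : ¬ G.Adj y z := fun h => c4 ⟨h, hyw'⟩
    exact build z w hzw hvz hvw hxz hxw hyz hyw hz hw hzw' hc hyw' hxw' hyz' hcov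
  · have hyz' : G.Adj y z := c1.resolve_left hc
    have hyw' : ¬ G.Adj y w := fun h => c4 ⟨hyz', h⟩
    have hxw' : G.Adj x w := c2.resolve_right hyw'
    exact build w z hzw.symm hvw hvz hxw hxz hyw hyz hw hz hzw'.symm hxw' hyz' hc hyw'
      (fun q => by rcases hcov q with h | h | h | h | h <;> simp [h])

theorem uniform_two {V : Type u} {c : V → V → κ} (hs : ∀ x y, c x y = c y x) (hg : NoRb c)
    {a : κ} (x y z w : V)
    (hxy : (colG c a).connectedComponentMk x = (colG c a).connectedComponentMk y)
    (hzw : (colG c a).connectedComponentMk z = (colG c a).connectedComponentMk w)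
    (hxz : (colG c a).connectedComponentMk x ≠ (colG c a).connectedComponentMk z) :
    c x z = c y w := by
  have h1 : c x z = c y z := uniform_one (a := a) hs hg
    (SimpleGraph.ConnectedComponent.eq.1 hxy)
    (fun h => hxz (SimpleGraph.ConnectedComponent.eq.2 h))
  have h2 : c z y = c w y := uniform_one (a := a) hs hg
    (SimpleGraph.ConnectedComponent.eq.1 hzw)
    (fun h => hxz (hxy.trans (SimpleGraph.ConnectedComponent.eq.2 h).symm))
  rw [h1, hs y z, h2, hs]

/-- The reduced colouring on the components of colour `a₀`. -/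
noncomputable def redC {V : Type u} (c : V → V → κ) (a₀ : κ) :
    (colG c a₀).ConnectedComponent → (colG c a₀).ConnectedComponent → κ :=
  fun C D => c C.out D.out

/-- The colouring inside a component of colour `a₀`. -/
def inC {V : Type u} (c : V → V → κ) (a₀ : κ) (C : (colG c a₀).ConnectedComponent) :
    {x // (colG c a₀).connectedComponentMk x = C} →
    {x // (colG c a₀).connectedComponentMk x = C} → κ :=
  fun x y => c x.1 y.1

theorem out_mk {V : Type u} {G : SimpleGraph V} (C : G.ConnectedComponent) :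
    G.connectedComponentMk C.out = C := Quot.out_eq C

theorem combine {V : Type u} {c : V → V → κ} (hs : ∀ x y, c x y = c y x) (hg : NoRb c)
    (ht : ∀ a x y z, x ≠ y → y ≠ z → x ≠ z → c x y = a → c y z = a → c x z = a → False)
    (a₀ a : κ) {Y : Type w} {K : SimpleGraph Y} (h1 : Nonempty (colG (redC c a₀) a →g K))
    (h2 : ∀ C, Nonempty (colG (inC c a₀ C) a →g K)) : Nonempty (colG c a →g K) := by
  classical
  obtain ⟨h⟩ := h1
  let k := fun C => Classical.choice (h2 C)
  have hrs : ∀ C D, redC c a₀ C D = redC c a₀ D C := fun _ _ => hs _ _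
  let mk := (colG c a₀).connectedComponentMk
  let out : (colG c a₀).ConnectedComponent → Prop := fun C => ∃ D, C ≠ D ∧ redC c a₀ C D = a
  refine ⟨⟨fun x => if out (mk x) then h (mk x) else k (mk x) ⟨x, rfl⟩, ?_⟩⟩
  intro x y hxy
  rw [colG_adj hs] at hxy
  by_cases hC : mk x = mk y
  · have hno : ¬ out (mk x) := by
      rintro ⟨D, hD, hDa⟩
      have hval : ∀ z, mk z = mk x → c z D.out = a := by
        intro z hz
        rw [uniform_two (a := a₀) hs hg z (mk x).out D.out D.out
          (hz.trans (out_mk _).symm) rfl ?_]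
        · exact hDa
        · rw [out_mk]
          show mk z ≠ D
          rw [hz]; exact hD
      have hne : ∀ z, mk z = mk x → z ≠ D.out := by
        intro z hz h'
        apply hD
        rw [← hz, h']
        exact out_mk D
      exact ht a x y D.out hxy.1 (hne y hC.symm) (hne x rfl) hxy.2 (hval y hC.symm) (hval x rfl)
    have hno' : ¬ out (mk y) := hC ▸ hno
    rw [if_neg hno, if_neg hno']
    have key : ∀ C (hx : mk x = C) (hy : mk y = C), K.Adj (k C ⟨x, hx⟩) (k C ⟨y, hy⟩) := by
      intro C hx hy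
      apply (k C).map_adj
      exact ⟨fun h' => hxy.1 (congrArg Subtype.val h'), hxy.2, by
        show c y x = a
        rw [hs]; exact hxy.2⟩
    have h3 := key (mk x) rfl hC.symm
    have h4 : ∀ C (hy : mk y = C), k C ⟨y, hy⟩ = k (mk y) ⟨y, rfl⟩ := by
      intro C hy; subst hy; rfl
    rw [h4 (mk x) hC.symm] at h3
    exact h3
  · have hval : redC c a₀ (mk x) (mk y) = a := by
      rw [← hxy.2]
      exact (uniform_two (a := a₀) hs hg x (mk x).out y (mk y).out (out_mk _).symm
        (out_mk _).symm hC).symm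
    have ho1 : out (mk x) := ⟨mk y, hC, hval⟩
    have ho2 : out (mk y) := ⟨mk x, fun h => hC h.symm, by rw [hrs]; exact hval⟩
    rw [if_pos ho1, if_pos ho2]
    apply h.map_adj
    rw [colG_adj hrs]
    exact ⟨hC, hval⟩

theorem tri_good : ∀ (n : ℕ) (V : Type u) [Fintype V], Fintype.card V = n →
    ∀ (c : V → V → κ), (∀ x y, c x y = c y x) → NoRb c →
    (∀ a x y z, x ≠ y → y ≠ z → x ≠ z → c x y = a → c y z = a → c x z = a → False) →
    ∀ a, Good (colG c a) := by
  intro n
  induction n using Nat.strong_induction_on with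
  | _ n ih =>
  intro V _ hn c hs hg ht a
  classical
  by_cases hcon : ∀ b, Used c b → (colG c b).Connected
  · by_cases ha : Used c a
    · refine good_of_small (colG c a) ?_ ?_
      · intro x y z h1 h2 h3
        rw [colG_adj hs] at h1 h2 h3
        exact ht a x y z h1.1 h2.1 h3.1 h1.2 h2.2 h3.2
      · intro x y z hxy hyz hxz h1 h2 h3
        have h1' : c x y ≠ a := fun h => h1 ((colG_adj hs).2 ⟨hxy, h⟩)
        have h2' : c y z ≠ a := fun h => h2 ((colG_adj hs).2 ⟨hyz, h⟩)
        have h3' : c x z ≠ a := fun h => h3 ((colG_adj hs).2 ⟨hxz, h⟩)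
        have hne : ∀ p q, Used c p → Used c q → p ≠ a → q ≠ a → p = q := by
          intro p q hp hq hpa hqa
          by_contra hpq
          exact gallai_two n V hn c hs hg hcon a p q ha hp hq hpa.symm hpq hqa.symm
        have e1 := hne _ _ ⟨x, y, hxy, rfl⟩ ⟨y, z, hyz, rfl⟩ h1' h2'
        have e2 := hne _ _ ⟨x, y, hxy, rfl⟩ ⟨x, z, hxz, rfl⟩ h1' h3'
        exact ht (c x y) x y z hxy hyz hxz rfl e1.symm e2.symm
    · refine good_of_colorable ⟨⟨fun _ => 0, ?_⟩⟩
      intro x y hxy
      rw [colG_adj hs] at hxy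
      exact absurd ⟨x, y, hxy.1, hxy.2⟩ ha
  · push Not at hcon
    obtain ⟨a₀, ⟨x, y, hxy, hc⟩, hnc⟩ := hcon
    have : Nonempty V := ⟨x⟩
    have hcomp : ∀ C : (colG c a₀).ConnectedComponent,
        ∃ z, (colG c a₀).connectedComponentMk z ≠ C := by
      intro C
      by_contra h
      push Not at h
      apply hnc
      have : (colG c a₀).Preconnected := fun p q =>
        SimpleGraph.ConnectedComponent.eq.1 ((h p).trans (h q).symm)
      exact ⟨this⟩
    have : Fintype (colG c a₀).ConnectedComponent := Fintype.ofFinite _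
    have hlt : Fintype.card (colG c a₀).ConnectedComponent < Fintype.card V := by
      have hsurj : Function.Surjective (colG c a₀).connectedComponentMk := by
        intro C
        exact ⟨C.out, out_mk C⟩
      refine lt_of_le_of_ne (Fintype.card_le_of_surjective _ hsurj) ?_
      intro hcard
      have hbij := (Fintype.bijective_iff_surjective_and_card
        (colG c a₀).connectedComponentMk).2 ⟨hsurj, hcard.symm⟩
      have h1 : (colG c a₀).Adj x y := (colG_adj hs).2 ⟨hxy, hc⟩
      exact hxy (hbij.1 (SimpleGraph.ConnectedComponent.eq.2 h1.reachable))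
    have hinj : ∀ C D : (colG c a₀).ConnectedComponent, C ≠ D → (C.out : V) ≠ D.out := by
      intro C D hCD h
      exact hCD (by rw [← out_mk C, ← out_mk D, h])
    have hred : Good (colG (redC c a₀) a) := by
      refine ih _ (hn ▸ hlt) _ rfl (redC c a₀) (fun _ _ => hs _ _) ?_ ?_ a
      · intro C D E h1 h2 h3
        exact hg _ _ _ (hinj _ _ h1) (hinj _ _ h2) (hinj _ _ h3)
      · intro b C D E h1 h2 h3 e1 e2 e3
        exact ht b _ _ _ (hinj _ _ h1) (hinj _ _ h2) (hinj _ _ h3) e1 e2 e3
    have hin : ∀ C, Good (colG (inC c a₀ C) a) := by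
      intro C
      refine ih (Fintype.card {z // (colG c a₀).connectedComponentMk z = C}) ?_ _ rfl
        (inC c a₀ C) (fun _ _ => hs _ _) ?_ ?_ a
      · obtain ⟨z, hz⟩ := hcomp C
        rw [← hn]
        exact Fintype.card_subtype_lt (x := z) hz
      · intro p q r h1 h2 h3
        exact hg _ _ _ (fun h => h1 (Subtype.ext h)) (fun h => h2 (Subtype.ext h))
          (fun h => h3 (Subtype.ext h))
      · intro b p q r h1 h2 h3 e1 e2 e3
        exact ht b _ _ _ (fun h => h1 (Subtype.ext h)) (fun h => h2 (Subtype.ext h))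
          (fun h => h3 (Subtype.ext h)) e1 e2 e3
    refine ⟨combine hs hg ht a₀ a hred.1 (fun C => (hin C).1), ?_⟩
    by_cases h5 : Nonempty (C5 →g colG (redC c a₀) a)
    · right
      obtain ⟨φ⟩ := h5
      refine ⟨⟨fun i => (φ i).out, ?_⟩⟩
      intro i j hij
      have h1 := φ.map_adj hij
      rw [colG_adj hs]
      exact ⟨hinj _ _ h1.1, h1.2.1⟩
    by_cases h6 : ∃ C, Nonempty (C5 →g colG (inC c a₀ C) a)
    · right
      obtain ⟨C, ⟨φ⟩⟩ := h6
      refine ⟨⟨fun i => (φ i).1, ?_⟩⟩
      intro i j hij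
      have h1 := φ.map_adj hij
      exact ⟨fun h => h1.1 (Subtype.ext h), h1.2.1, h1.2.2⟩
    · left
      push Not at h6
      have h7 : (colG (redC c a₀) a).Colorable 2 := hred.2.resolve_right h5
      have h8 : ∀ C, (colG (inC c a₀ C) a).Colorable 2 := fun C =>
        (hin C).2.resolve_right (not_nonempty_iff.2 (h6 C))
      exact combine hs hg ht a₀ a h7 h8

/-- `3`-colourable graphs are good for unions. -/
theorem unionOK_of_colorable {W : Type w} [Nonempty W] (H : SimpleGraph W)
    (hH : H.Colorable 3) : UnionOK.{u} H κ := by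
  intro V _ c f a hs hg hf hfree
  refine ⟨fun φ => ?_⟩
  classical
  obtain ⟨w0⟩ := ‹Nonempty W›
  have hrs : ∀ i x y, restr c f i x y = restr c f i y x := fun _ _ _ => hs _ _
  have hrg : ∀ i, NoRb (restr c f i) := by
    intro i x y z h1 h2 h3
    exact hg _ _ _ (fun h => h1 (Subtype.ext h)) (fun h => h2 (Subtype.ext h))
      (fun h => h3 (Subtype.ext h))
  -- no monochromatic triangle in a part
  have hrt : ∀ i b x y z, x ≠ y → y ≠ z → x ≠ z → restr c f i x y = b → restr c f i y z = b →
      restr c f i x z = b → False := by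
    intro i b x y z hxy hyz hxz h1 h2 h3
    obtain ⟨g⟩ := hH
    refine (hfree i b).false ⟨fun w => if g w = 0 then x else if g w = 1 then y else z, ?_⟩
    intro w w' hadj
    have hne : g w ≠ g w' := g.valid hadj
    have key : ∀ p q : Fin 3, p ≠ q → (colG (restr c f i) b).Adj
        (if p = 0 then x else if p = 1 then y else z)
        (if q = 0 then x else if q = 1 then y else z) := by
      intro p q hpq
      have e1 : (colG (restr c f i) b).Adj x y := (colG_adj (hrs i)).2 ⟨hxy, h1⟩
      have e2 : (colG (restr c f i) b).Adj y z := (colG_adj (hrs i)).2 ⟨hyz, h2⟩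
      have e3 : (colG (restr c f i) b).Adj x z := (colG_adj (hrs i)).2 ⟨hxz, h3⟩
      fin_cases p <;> fin_cases q <;>
        first
        | exact absurd rfl hpq
        | exact e1
        | exact e1.symm
        | exact e2
        | exact e2.symm
        | exact e3
        | exact e3.symm
    exact key _ _ hne
  have hgood : ∀ i, Good (colG (restr c f i) a) := fun i =>
    tri_good _ _ rfl (restr c f i) (hrs i) (hrg i) (hrt i) a
  -- gluing homomorphisms of the parts
  have hglue : ∀ {Y : Type} (K : SimpleGraph Y), (∀ i, Nonempty (colG (restr c f i) a →g K)) →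
      Nonempty (colG c a →g K) := by
    intro Y K hK
    let k := fun i => Classical.choice (hK i)
    refine ⟨⟨fun x => k (f x) ⟨x, rfl⟩, ?_⟩⟩
    intro x y hxy
    rw [colG_adj hs] at hxy
    have hfx := hf x y hxy.1 hxy.2
    have key : ∀ i (hx : f x = i) (hy : f y = i), K.Adj (k i ⟨x, hx⟩) (k i ⟨y, hy⟩) := by
      intro i hx hy
      apply (k i).map_adj
      exact (colG_adj (hrs i)).2 ⟨fun h => hxy.1 (congrArg Subtype.val h), hxy.2⟩
    have h3 := key (f x) rfl hfx.symm
    have h4 : ∀ i (hy : f y = i), k i ⟨y, hy⟩ = k (f y) ⟨y, rfl⟩ := by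
      intro i hy; subst hy; rfl
    rw [h4 (f x) hfx.symm] at h3
    exact h3
  by_cases h5 : ∃ i, Nonempty (C5 →g colG (restr c f i) a)
  · obtain ⟨i, ⟨ψ⟩⟩ := h5
    obtain ⟨θ⟩ := hglue C5 (fun i => (hgood i).1)
    exact (hfree i a).false (ψ.comp (θ.comp φ))
  · push Not at h5
    have h6 : ∀ i, (colG (restr c f i) a).Colorable 2 := fun i =>
      (hgood i).2.resolve_right (not_nonempty_iff.2 (h5 i))
    obtain ⟨θ⟩ := hglue (⊤ : SimpleGraph (Fin 2)) h6
    -- `H` is bipartite
    let g := θ.comp φ
    by_cases hE : ∃ w w', H.Adj w w'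
    · obtain ⟨w, w', hww⟩ := hE
      have h1 := φ.map_adj hww
      rw [colG_adj hs] at h1
      have hfx := hf _ _ h1.1 h1.2
      have e1 : (colG (restr c f (f (φ w))) a).Adj ⟨φ w, rfl⟩ ⟨φ w', hfx.symm⟩ :=
        (colG_adj (hrs _)).2 ⟨fun h => h1.1 (congrArg Subtype.val h), h1.2⟩
      refine (hfree (f (φ w)) a).false
        ⟨fun t => if g t = 0 then ⟨φ w, rfl⟩ else ⟨φ w', hfx.symm⟩, ?_⟩
      intro t t' htt
      have h2 : g t ≠ g t' := (g.map_adj htt)
      have key : ∀ p q : Fin 2, p ≠ q → (colG (restr c f (f (φ w))) a).Adj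
          (if p = 0 then ⟨φ w, rfl⟩ else ⟨φ w', hfx.symm⟩)
          (if q = 0 then ⟨φ w, rfl⟩ else ⟨φ w', hfx.symm⟩) := by
        intro p q hpq
        fin_cases p <;> fin_cases q <;>
          first
          | exact absurd rfl hpq
          | exact e1
          | exact e1.symm
      exact key _ _ h2
    · push Not at hE
      refine (hfree (f (φ w0)) a).false ⟨fun _ => ⟨φ w0, rfl⟩, ?_⟩
      intro t t' htt
      exact absurd htt (hE t t')

end Pool.Agent.GallaiStar
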